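import Pool.Agent.Helper45.HG.A
import Pool.Agent.Helper13.HG2.Defs

/-!
# Block AP: block A for a given section, and the comparison with the rational branch point
-/

set_option autoImplicit false
set_option linter.unusedSectionVars false

namespace Pool.Agent.HG

open Polynomial NumberField IsDedekindDomain WithZero Pool.Agent.Helper91.Sect
open scoped IntermediateField

/-! ## An equivariant choice -/

section

variable {k C : Type*} [Field k] [Field C] [Algebra k C]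

theorem exists_equiv_choice (H : Subgroup (C ≃ₐ[k] C)) (T : Set C)
    (hT : ∀ g ∈ H, ∀ z ∈ T, g z ∈ T) (e : C → C)
    (he : ∀ z ∈ T, ∀ g ∈ H, g z = z → g (e z) = e z) :
    ∃ e' : C → C, (∀ z ∈ T, ∃ h ∈ H, ∃ z₀ ∈ T, h z₀ = z ∧ e' z = h (e z₀)) ∧
      ∀ g ∈ H, ∀ z ∈ T, g (e' z) = e' (g z) := by
  classical
  let q : C → Quotient (MulAction.orbitRel H C) := fun z => Quotient.mk _ z
  have hq : ∀ (g : C ≃ₐ[k] C), g ∈ H → ∀ z, q (g z) = q z := by
    intro g hg z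
    refine Quotient.sound ?_
    exact ⟨⟨g, hg⟩, rfl⟩
  have hex : ∀ z : C, ∃ h ∈ H, h (q z).out = z := by
    intro z
    have h1 : (MulAction.orbitRel H C) (q z).out z := Quotient.mk_out z
    obtain ⟨⟨h, hh⟩, h2⟩ := h1
    have h3 : h z = (q z).out := h2
    refine ⟨h⁻¹, H.inv_mem hh, ?_⟩
    rw [← h3]
    exact h.symm_apply_apply z
  choose h hH hh using hex
  have hrT : ∀ z ∈ T, (q z).out ∈ T := by
    intro z hz
    have h1 := hT _ (H.inv_mem (hH z)) z hz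
    have h2 : (h z)⁻¹ z = (q z).out := by
      conv_lhs => rw [← hh z]
      rw [hh z]
      have h3 : (h z).symm (h z (q z).out) = (q z).out := (h z).symm_apply_apply _
      rw [hh z] at h3
      exact h3
    rw [h2] at h1
    exact h1
  refine ⟨fun z => h z (e (q z).out), fun z hz => ⟨h z, hH z, _, hrT z hz, hh z, rfl⟩, ?_⟩
  intro g hg z hz
  have h1 : q (g z) = q z := hq g hg z
  change g (h z (e (q z).out)) = h (g z) (e (q (g z)).out)
  have h2 := hh (g z)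
  rw [h1] at h2 ⊢
  have h3 : ((h (g z))⁻¹ * (g * h z)) (q z).out = (q z).out := by
    change (h (g z)).symm (g (h z (q z).out)) = (q z).out
    rw [hh z, AlgEquiv.symm_apply_eq]
    exact h2.symm
  have h4 := he _ (hrT z hz) _ (H.mul_mem (H.inv_mem (hH _)) (H.mul_mem hg (hH z))) h3
  have h5 : (h (g z)).symm (g (h z (e (q z).out))) = e (q z).out := h4
  rw [AlgEquiv.symm_apply_eq] at h5
  exact h5

end

/-! ## The comparison -/

section

variable {k K : Type} [Field k] [Field K] [Algebra k K] [CharZero k]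
  {s : GaloisSection k K} {x y : K} {f : k[X]} {c a : k}

open scoped Classical in
/-- `f'(a)` in terms of the other roots -/
theorem deriv_at (d : Crv k x y f c) (ha : algebraMap k (kbar k K) a ∈ d.R) :
    algebraMap k (kbar k K) (eval a (derivative f)) = algebraMap k (kbar k K) f.leadingCoeff *
      ∏ r ∈ d.R.erase (algebraMap k (kbar k K) a), (algebraMap k (kbar k K) a - r) := by
  classical
  have h1 := congrArg derivative d.hprod
  rw [← Finset.mul_prod_erase _ _ ha, derivative_map, derivative_C_mul, derivative_mul,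
    derivative_sub, derivative_X, derivative_C, sub_zero, one_mul] at h1
  have h2 := congrArg (eval (algebraMap k (kbar k K) a)) h1
  rw [eval_map_algebraMap, aeval_algebraMap_apply] at h2
  rw [eval_mul, eval_C, eval_add, eval_mul, eval_sub, eval_X, eval_C, sub_self, zero_mul, add_zero,
    eval_prod] at h2
  rw [← coe_aeval_eq_eval, h2]
  congr 1
  refine Finset.prod_congr rfl fun j _ => ?_
  rw [eval_sub, eval_X, eval_C]

theorem agrees_of_squares (d : Dat s x y f c) (hev : Even d.R.card)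
    (ha : algebraMap k (kbar k K) a ∈ d.R) (e : kbar k K → kbar k K → kbar k K)
    (he : ∀ ρ ∈ d.R, ∀ θ ∈ d.R, ρ ≠ θ → ρ ≠ algebraMap k (kbar k K) a →
      θ ≠ algebraMap k (kbar k K) a → d.δ ρ θ ^ 2 *
        ((algebraMap k (kbar k K) a - ρ) * (algebraMap k (kbar k K) a - θ)) = e ρ θ ^ 2)
    (heg : ∀ ρ ∈ d.R, ∀ θ ∈ d.R, ρ ≠ θ → ρ ≠ algebraMap k (kbar k K) a →
      θ ≠ algebraMap k (kbar k K) a → ∀ g : Gk k K, g ρ = ρ → g θ = θ → g (e ρ θ) = e ρ θ) :
    Agrees s x f a c := by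
  classical
  obtain ⟨A, hA⟩ : ∃ A : kbar k K, A = algebraMap k (kbar k K) a := ⟨_, rfl⟩
  have hgA : ∀ g : Gk k K, g A = A := fun g => by rw [hA, AlgEquiv.commutes]
  intro ρ hρ hρa W hW r hr g hg
  rw [← hA] at ha hρa hr he heg
  have hρR : ρ ∈ d.R := (d.hR ρ).2 hρ
  obtain ⟨T, hT⟩ : ∃ T : Finset (kbar k K), T = (d.R.erase A).erase ρ := ⟨_, rfl⟩
  have hTm : ∀ θ, θ ∈ T ↔ θ ≠ ρ ∧ θ ≠ A ∧ θ ∈ d.R := by
    intro θ
    rw [hT, Finset.mem_erase, Finset.mem_erase]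
  have hρe : ρ ∈ d.R.erase A := Finset.mem_erase.2 ⟨hρa, hρR⟩
  have hTcard : ∃ m : ℕ, T.card = 2 * m := by
    obtain ⟨u, hu⟩ := hev
    have h1 : (d.R.erase A).card = d.R.card - 1 := Finset.card_erase_of_mem ha
    have h2 : T.card = (d.R.erase A).card - 1 := by rw [hT, Finset.card_erase_of_mem hρe]
    exact ⟨u - 1, by omega⟩
  obtain ⟨m, hm⟩ := hTcard
  have hgT : ∀ g : Gk k K, g ρ = ρ → ∀ θ ∈ T, g θ ∈ T := by
    intro g hg θ hθ
    rw [hTm] at hθ ⊢
    refine ⟨fun h => hθ.1 (g.injective (h.trans hg.symm)), fun h => hθ.2.1 (g.injective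
      (h.trans (hgA g).symm)), d.gR g hθ.2.2⟩
  have hprodT : ∀ (F : kbar k K → Kur k K) (g : Gk k K), g ρ = ρ → ∏ θ ∈ T, F (g θ) = ∏ θ ∈ T, F θ := by
    intro F g hg
    refine Finset.prod_bij (fun θ _ => g θ) (fun θ hθ => hgT g hg θ hθ)
      (fun θ _ θ' _ h => g.injective h) (fun θ hθ => ?_) (fun θ _ => rfl)
    refine ⟨g⁻¹ θ, hgT g⁻¹ ?_ θ hθ, ?_⟩
    · conv_lhs => rw [← hg]
      exact g.symm_apply_apply ρ
    · exact g.apply_symm_apply θ
  have hprodT' : ∀ (F : kbar k K → kbar k K) (g : Gk k K), g ρ = ρ → ∏ θ ∈ T, F (g θ) = ∏ θ ∈ T, F θ := by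
    intro F g hg
    refine Finset.prod_bij (fun θ _ => g θ) (fun θ hθ => hgT g hg θ hθ)
      (fun θ _ θ' _ h => g.injective h) (fun θ hθ => ?_) (fun θ _ => rfl)
    refine ⟨g⁻¹ θ, hgT g⁻¹ ?_ θ hθ, ?_⟩
    · conv_lhs => rw [← hg]
      exact g.symm_apply_apply ρ
    · exact g.apply_symm_apply θ
  -- the product of all square roots
  have hcC : ((algebraMap k (kbar k K) c : kbar k K) : AlgebraicClosure K) ≠ 0 := by
    intro h
    exact d.c_ne (Subtype.ext h)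
  have hlC : ((algebraMap k (kbar k K) f.leadingCoeff : kbar k K) : AlgebraicClosure K) ≠ 0 := by
    intro h
    exact d.a0_ne (Subtype.ext h)
  obtain ⟨κ, hκ2, hκ⟩ : ∃ κ : kbar k K,
      κ ^ 2 = algebraMap k (kbar k K) c / algebraMap k (kbar k K) f.leadingCoeff ∧
      ∏ r ∈ d.R, d.v r = (κ : AlgebraicClosure K) * algebraMap K (AlgebraicClosure K) y := by
    obtain ⟨κ, hκ⟩ := IsAlgClosed.exists_pow_nat_eq
      (algebraMap k (kbar k K) c / algebraMap k (kbar k K) f.leadingCoeff) two_pos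
    have h1 : (∏ r ∈ d.R, d.v r) ^ 2 =
        ((κ : AlgebraicClosure K) * algebraMap K (AlgebraicClosure K) y) ^ 2 := by
      rw [← Finset.prod_pow, Finset.prod_congr rfl fun r _ => d.hv r, mul_pow]
      have h2 := d.heq
      have h3 : (κ : AlgebraicClosure K) ^ 2 =
          ((algebraMap k (kbar k K) c : kbar k K) : AlgebraicClosure K) /
            ((algebraMap k (kbar k K) f.leadingCoeff : kbar k K) : AlgebraicClosure K) :=
        congrArg (fun t : kbar k K => (t : AlgebraicClosure K)) hκ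
      rw [h3, div_mul_eq_mul_div, h2, mul_div_cancel_left₀ _ hlC]
    rcases sq_eq_sq_iff_eq_or_eq_neg.1 h1 with h2 | h2
    · exact ⟨κ, hκ, h2⟩
    · refine ⟨-κ, by rw [neg_sq, hκ], ?_⟩
      rw [h2]
      push_cast
      ring
  have hvρ : d.v ρ ≠ 0 := d.hv0 ρ
  -- the relation
  have hrel : d.W ρ A * ∏ θ ∈ T, d.W ρ θ =
      (algebraMap K (Kur k K) x - toKur k K ρ) ^ m * (toKur k K κ * algebraMap K (Kur k K) y) := by
    apply Subtype.ext
    have h1 : ((d.W ρ A * ∏ θ ∈ T, d.W ρ θ : Kur k K) : AlgebraicClosure K) =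
        (d.v ρ * d.v A) * ∏ θ ∈ T, (d.v ρ * d.v θ) := by
      rw [MulMemClass.coe_mul, d.hW ρ hρR A ha]
      congr 1
      rw [show ((∏ θ ∈ T, d.W ρ θ : Kur k K) : AlgebraicClosure K) =
        ∏ θ ∈ T, (d.W ρ θ : AlgebraicClosure K) from map_prod (Kur k K).val _ _]
      exact Finset.prod_congr rfl fun θ hθ => d.hW ρ hρR θ ((hTm θ).1 hθ).2.2
    rw [h1, Finset.prod_mul_distrib, Finset.prod_const, hm]
    have h2 : ∏ r ∈ d.R, d.v r = d.v A * (d.v ρ * ∏ θ ∈ T, d.v θ) := by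
      rw [hT, Finset.mul_prod_erase _ _ hρe, Finset.mul_prod_erase _ _ ha]
    have h3 : ((((algebraMap K (Kur k K) x - toKur k K ρ) ^ m *
        (toKur k K κ * algebraMap K (Kur k K) y)) : Kur k K) : AlgebraicClosure K) =
        (d.v ρ ^ 2) ^ m * ((κ : AlgebraicClosure K) * algebraMap K (AlgebraicClosure K) y) := by
      rw [d.hv ρ]
      rfl
    rw [h3, ← hκ, h2, pow_mul]
    ring
  -- the constants
  obtain ⟨Δ, hΔ⟩ : ∃ Δ : kbar k K, Δ = ∏ θ ∈ T, d.δ ρ θ := ⟨_, rfl⟩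
  have hΔ0 : Δ ≠ 0 := by
    rw [hΔ]
    exact Finset.prod_ne_zero_iff.2 fun θ hθ => d.hδ0 ρ hρR θ ((hTm θ).1 hθ).2.2
  have hκ0 : κ ≠ 0 := by
    intro h
    rw [h, zero_pow two_ne_zero, eq_comm, div_eq_zero_iff] at hκ2
    rcases hκ2 with h | h
    · exact d.c_ne h
    · exact d.a0_ne h
  have hact : toKur k K (g Δ) * s.toHom g (∏ θ ∈ T, d.W ρ θ) = toKur k K Δ * ∏ θ ∈ T, d.W ρ θ := by
    rw [hΔ, map_prod, map_prod, map_prod, map_prod, ← Finset.prod_mul_distrib,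
      ← Finset.prod_mul_distrib]
    rw [← hprodT (fun θ => toKur k K (d.δ ρ θ) * d.W ρ θ) g hg]
    refine Finset.prod_congr rfl fun θ hθ => ?_
    have h1 := d.hδ g ρ hρR θ ((hTm θ).1 hθ).2.2
    rw [hg, map_mul, section_toKur] at h1
    exact h1
  have hP0 : ∏ θ ∈ T, d.W ρ θ ≠ 0 :=
    Finset.prod_ne_zero_iff.2 fun θ hθ => d.W_ne hρR ((hTm θ).1 hθ).2.2
  have hmain : s.toHom g (d.W ρ A) * toKur k K (Δ * κ) = toKur k K (g (Δ * κ)) * d.W ρ A := by
    have h1 := congrArg (s.toHom g) hrel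
    rw [map_mul, map_mul (s.toHom g) (_ ^ m), map_pow, map_sub, map_mul (s.toHom g) (toKur k K κ),
      section_toKur, section_toKur, AlgEquiv.commutes, AlgEquiv.commutes, hg] at h1
    have hgP0 : s.toHom g (∏ θ ∈ T, d.W ρ θ) ≠ 0 := fun h => hP0 ((s.toHom g).injective (by
      rw [h, map_zero]))
    apply mul_right_cancel₀ hP0
    have hkK : toKur k K κ ≠ 0 := (_root_.map_ne_zero _).2 hκ0
    -- `X := (x - ρ)^m y`
    have h2 : d.W ρ A * (∏ θ ∈ T, d.W ρ θ) * toKur k K (g κ) =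
        s.toHom g (d.W ρ A) * s.toHom g (∏ θ ∈ T, d.W ρ θ) * toKur k K κ := by
      rw [hrel, h1]
      ring
    have h3 : toKur k K (g (Δ * κ)) * d.W ρ A * ∏ θ ∈ T, d.W ρ θ =
        toKur k K (g Δ) * (d.W ρ A * (∏ θ ∈ T, d.W ρ θ) * toKur k K (g κ)) := by
      rw [map_mul g, map_mul]
      ring
    rw [h3, h2]
    have h4 : toKur k K (g Δ) * (s.toHom g (d.W ρ A) * s.toHom g (∏ θ ∈ T, d.W ρ θ) * toKur k K κ) =
        s.toHom g (d.W ρ A) * toKur k K κ *
          (toKur k K (g Δ) * s.toHom g (∏ θ ∈ T, d.W ρ θ)) := by ring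
    rw [h4, hact, map_mul]
    ring
  -- the equivariant choice
  obtain ⟨H, hH⟩ : ∃ H : Subgroup (Gk k K), ∀ g : Gk k K, g ∈ H ↔ g ρ = ρ :=
    ⟨MulAction.stabilizer (Gk k K) ρ, fun g => Iff.rfl⟩
  obtain ⟨e', he'1, he'2⟩ := exists_equiv_choice H (T : Set (kbar k K))
    (fun g hg θ hθ => hgT g ((hH g).1 hg) θ hθ) (fun θ => e ρ θ) (by
      intro θ hθ g hg hgθ
      have h1 := (hTm θ).1 hθ
      exact heg ρ hρR θ h1.2.2 h1.1.symm hρa h1.2.1 g ((hH g).1 hg) hgθ)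
  have he'sq : ∀ θ ∈ T, d.δ ρ θ ^ 2 * ((A - ρ) * (A - θ)) = e' θ ^ 2 := by
    intro θ hθ
    obtain ⟨h, hh, θ₀, hθ₀, rfl, h2⟩ := he'1 θ hθ
    have h1 := (hTm θ₀).1 hθ₀
    have h3 := congrArg h (he ρ hρR θ₀ h1.2.2 h1.1.symm hρa h1.2.1)
    rw [map_mul, map_mul h (A - ρ), map_sub, map_sub, hgA, (hH h).1 hh,
      d.sq_equiv h hρR h1.2.2, (hH h).1 hh, map_pow] at h3
    rw [h2]
    exact h3
  have hE : g (∏ θ ∈ T, e' θ) = ∏ θ ∈ T, e' θ := by
    rw [map_prod, ← hprodT' e' g hg]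
    exact Finset.prod_congr rfl fun θ hθ => he'2 g ((hH g).2 hg) θ hθ
  -- `r Δ κ`
  have hAρ : A - ρ ≠ 0 := sub_ne_zero.2 hρa.symm
  have hder := deriv_at d.toCrv (a := a) (by rw [← hA]; exact ha)
  rw [← hA, ← Finset.mul_prod_erase _ _ hρe, ← hT] at hder
  have hsq : (r * (Δ * κ) * (A - ρ) ^ m) ^ 2 =
      (algebraMap k (kbar k K) c * (A - ρ) * ∏ θ ∈ T, e' θ) ^ 2 := by
    have h1 : (∏ θ ∈ T, e' θ) ^ 2 = Δ ^ 2 * ((A - ρ) ^ (2 * m) * ∏ θ ∈ T, (A - θ)) := by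
      rw [← Finset.prod_pow, ← Finset.prod_congr rfl he'sq, Finset.prod_mul_distrib,
        Finset.prod_mul_distrib, Finset.prod_const, hm, hΔ, ← Finset.prod_pow]
    rw [mul_pow, mul_pow (algebraMap k (kbar k K) c * (A - ρ)), h1, mul_pow r, hr, mul_pow Δ, hκ2,
      map_mul, hder]
    have h2 := d.a0_ne
    field_simp
    ring
  have hinv : g (r * (Δ * κ)) = r * (Δ * κ) := by
    have h1 : g (r * (Δ * κ) * (A - ρ) ^ m) = r * (Δ * κ) * (A - ρ) ^ m := by
      have h2 : g (algebraMap k (kbar k K) c * (A - ρ) * ∏ θ ∈ T, e' θ) =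
          algebraMap k (kbar k K) c * (A - ρ) * ∏ θ ∈ T, e' θ := by
        rw [map_mul, map_mul, AlgEquiv.commutes, map_sub, hgA, hg, hE]
      rcases sq_eq_sq_iff_eq_or_eq_neg.1 hsq with h3 | h3
      · rw [h3, h2]
      · rw [h3, map_neg, h2]
    rw [map_mul, map_pow, map_sub, hgA, hg] at h1
    exact mul_right_cancel₀ (pow_ne_zero m hAρ) h1
  have hr2 : g r ^ 2 = r ^ 2 := by
    rw [← map_pow, hr, map_mul, AlgEquiv.commutes, map_sub, hgA, hg]
  have hr0 : r ≠ 0 := by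
    intro h
    rw [h, zero_pow two_ne_zero, map_mul, hder, eq_comm] at hr
    have h2 : ∏ θ ∈ T, (A - θ) ≠ 0 := Finset.prod_ne_zero_iff.2 fun θ hθ =>
      sub_ne_zero.2 fun h => ((hTm θ).1 hθ).2.1 h.symm
    exact mul_ne_zero (mul_ne_zero d.c_ne (mul_ne_zero d.a0_ne (mul_ne_zero hAρ h2))) hAρ hr
  -- the sign of `s g` on `W ρ A`
  have hWA : s.toHom g (d.W ρ A) * toKur k K r = d.W ρ A * toKur k K (g r) := by
    have hΔκ0 : Δ * κ ≠ 0 := mul_ne_zero hΔ0 hκ0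
    rcases sq_eq_sq_iff_eq_or_eq_neg.1 hr2 with h1 | h1
    · have h2 : g (Δ * κ) = Δ * κ := by
        rw [map_mul, h1] at hinv
        exact mul_left_cancel₀ hr0 hinv
      rw [h2, mul_comm (toKur k K (Δ * κ))] at hmain
      rw [mul_right_cancel₀ ((_root_.map_ne_zero _).2 hΔκ0) hmain, h1]
    · have h2 : g (Δ * κ) = -(Δ * κ) := by
        rw [map_mul, h1] at hinv
        have h3 : r * (-(g (Δ * κ))) = r * (Δ * κ) := by
          rw [← hinv]
          ring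
        exact neg_eq_iff_eq_neg.1 (mul_left_cancel₀ hr0 h3)
      have h3 : s.toHom g (d.W ρ A) = -d.W ρ A := by
        apply mul_right_cancel₀ ((_root_.map_ne_zero (toKur k K)).2 hΔκ0)
        rw [hmain, h2, map_neg]
        ring
      rw [h3, h1, map_neg]
      ring
  -- `W = ± W ρ A`
  have hWW : W = d.W ρ A ∨ W = -d.W ρ A := by
    refine sq_eq_sq_iff_eq_or_eq_neg.1 (Subtype.ext ?_)
    change (W : AlgebraicClosure K) ^ 2 = (d.W ρ A : AlgebraicClosure K) ^ 2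
    rw [hW, d.hW ρ hρR A ha, mul_pow, d.hv, d.hv, hA, map_sub]
    rfl
  have hfin : s.toHom g W * toKur k K r = W * toKur k K (g r) := by
    rcases hWW with h | h
    · rw [h, hWA]
    · rw [h, map_neg, neg_mul, hWA, neg_mul]
  exact congrArg (fun t : Kur k K => (t : AlgebraicClosure K)) hfin

end

/-! ## Block A for a given section -/

theorem bad_of_section (k : Type) [Field k] [NumberField k] (f : k[X]) (hev : Even f.natDegree)
    (h4 : 4 ≤ f.natDegree) (hf : f.Separable) (L : Type) [Field L] [NumberField L] [Algebra k L]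
    [IsGalois k L] (_hsplit : (f.map (algebraMap k L)).Splits) :
    ∃ M : ℕ, M ≠ 0 ∧ ∀ (c : k), c ≠ 0 → ∀ (K : Type) [Field K] [Algebra k K] (x y : K),
      Transcendental k x → y ^ 2 = algebraMap k K c * aeval x f → ∀ s : GaloisSection k K,
      ∃ (y' : K) (d : Dat s x y' f c) (ι : L →ₐ[k] kbar k K) (α : Pr k → 𝓞 k) (D : L → L → L),
        d.R.card = f.natDegree ∧
        (∀ θ ∈ f.rootSet L, ∀ θ' ∈ f.rootSet L, ι (D θ θ') = d.δ (ι θ) (ι θ') ^ 2) ∧
        Bad f M c α D := by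
  classical
  obtain ⟨M₁, hM₁, hgood⟩ := exists_good f hf
  obtain ⟨M₂, hM₂, hunk⟩ := exists_unram k
  obtain ⟨M₃, hM₃, hunL⟩ := exists_unram L
  refine ⟨2 * M₁ * M₂ * M₃, mul_ne_zero (mul_ne_zero (mul_ne_zero two_ne_zero hM₁) hM₂) hM₃, ?_⟩
  intro c hc K _ _ x y hx hxy s
  have hcK : algebraMap k K c ≠ 0 := (_root_.map_ne_zero _).2 hc
  have hxy' : algebraMap k K c * (y / algebraMap k K c) ^ 2 = aeval x f := by
    rw [div_pow, hxy]
    field_simp
  obtain ⟨d₀, hd₀⟩ := exists_crv hx hf hc hxy'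
  obtain ⟨d, hd⟩ := exists_dat s d₀
  have hcard : d.R.card = f.natDegree := by
    rw [← hd₀, ← hd]
  have halg : Algebra.IsAlgebraic k L := inferInstance
  obtain ⟨ι⟩ : Nonempty (L →ₐ[k] kbar k K) := ⟨IsAlgClosed.lift⟩
  obtain ⟨D, hD, hD0, hDσ⟩ := exists_D d ι
  have hloc : ∀ (p : ℕ) (v : Pr k), p.Prime → ¬ p ∣ 2 * M₁ * M₂ * M₃ → (p : 𝓞 k) ∈ v.asIdeal →
      ∃ α : 𝓞 k, ∀ P : Pr L, P.asIdeal.comap (algebraMap (𝓞 k) (𝓞 L)) = v.asIdeal →
        At f c D p v P α := by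
    intro p v hp hpM hv
    have hp2 : p ≠ 2 := by
      rintro rfl
      exact hpM (((dvd_mul_right 2 _).mul_right _).mul_right _)
    have hp1 : ¬ p ∣ M₁ := fun h => hpM (((h.mul_left _).mul_right _).mul_right _)
    have hp2' : ¬ p ∣ M₂ := fun h => hpM ((h.mul_left _).mul_right _)
    have hp3 : ¬ p ∣ M₃ := fun h => hpM (h.mul_left _)
    obtain ⟨ff, hff0, hff⟩ := nm_pow v hp hv
    have hG := hgood p v hp hp1 hv
    obtain ⟨Lc⟩ := exists_loc d hp hff0 (pl_OV v hff (hunk p hp hp2' v hv)) hp2 hG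
    obtain ⟨P, α, hP, hAt⟩ := at_one d (by rw [hcard]; exact hev) (by rw [hcard]; exact h4) hv hff Lc
      hG ι (hunL p hp hp3) hD
    refine ⟨α, fun P' hP' => ?_⟩
    obtain ⟨σ, hσ⟩ := exists_conj' hP hP'
    exact hAt.conj hDσ hσ
  have hch : ∀ v : Pr k, ∃ α : 𝓞 k, ∀ p : ℕ, p.Prime → ¬ p ∣ 2 * M₁ * M₂ * M₃ →
      (p : 𝓞 k) ∈ v.asIdeal → ∀ P : Pr L,
      P.asIdeal.comap (algebraMap (𝓞 k) (𝓞 L)) = v.asIdeal → At f c D p v P α := by
    intro v
    by_cases h : ∃ p : ℕ, p.Prime ∧ ¬ p ∣ 2 * M₁ * M₂ * M₃ ∧ (p : 𝓞 k) ∈ v.asIdeal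
    · obtain ⟨p, hp, hpM, hv⟩ := h
      obtain ⟨α, hα⟩ := hloc p v hp hpM hv
      refine ⟨α, fun p' hp' hpM' hv' => ?_⟩
      have h1 : (p : ℤ) ∣ (p' : ℤ) := dvd_of_mem hp hv (by rw [Int.cast_natCast]; exact hv')
      have h2 : p = p' := (Nat.prime_dvd_prime_iff_eq hp hp').1 (by exact_mod_cast h1)
      rw [← h2]
      exact hα
    · exact ⟨0, fun p hp hpM hv => absurd ⟨p, hp, hpM, hv⟩ h⟩
  choose α hα using hch
  refine ⟨_, d, ι, α, D, hcard, hD, ?_⟩
  refine ⟨fun θ hθ θ' hθ' _ => hD0 θ hθ θ' hθ', fun σ θ hθ θ' hθ' _ => hDσ σ θ hθ θ' hθ',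
    ?_, ?_, ?_, ?_, ?_⟩
  · intro p v hp hpM hv hc
    obtain ⟨P, hP⟩ := exists_over (L := L) v
    exact (hα v p hp hpM hv P hP).root hc
  · intro p v P hO
    exact (hα v p hO.prime hO.not_dvd hO.mem P hO.comap).good
  · intro p v P hO
    exact (hα v p hO.prime hO.not_dvd hO.mem P hO.comap).even
  · intro p v P hO
    exact (hα v p hO.prime hO.not_dvd hO.mem P hO.comap).odd
  · intro p v P hO
    exact (hα v p hO.prime hO.not_dvd hO.mem P hO.comap).tangent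

/-- **Block AP.** -/
theorem stmtAP : StmtAP := by
  classical
  intro k _ _ f hev h4 hf L _ _ _ _ hsplit
  obtain ⟨M, hM, h⟩ := bad_of_section k f hev h4 hf L hsplit
  refine ⟨M, hM, fun c a hc ha hO => ?_⟩
  obtain ⟨K, hFK, hAK, x, y, hx, hxy, s, hs⟩ := hO
  obtain ⟨y', d, ι, α, D, hcard, hD, hB⟩ := h c hc K x y hx hxy s
  refine ⟨α, D, hB, fun hT => hs ?_⟩
  have hf0 : f ≠ 0 := hf.ne_zero
  -- all roots come from `L`
  have hroots : ∀ ρ ∈ d.R, ∃ θ ∈ f.rootSet L, ι θ = ρ := by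
    intro ρ hρ
    have h1 : aeval ρ f = 0 := (d.hR ρ).1 hρ
    have h2 : (f.map (algebraMap k L)).roots.map ι = (f.map (algebraMap k (kbar k K))).roots := by
      have h3 := hsplit.roots_map (ι : L →+* kbar k K)
      rw [Polynomial.map_map] at h3
      have h4 : (ι : L →+* kbar k K).comp (algebraMap k L) = algebraMap k (kbar k K) := ι.comp_algebraMap
      rw [h4] at h3
      exact h3.symm
    have h3 : ρ ∈ (f.map (algebraMap k (kbar k K))).roots := by
      rw [mem_roots ((Polynomial.map_ne_zero_iff (algebraMap k (kbar k K)).injective).2 hf0),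
        IsRoot.def, eval_map, ← aeval_def]
      exact h1
    rw [← h2, Multiset.mem_map] at h3
    obtain ⟨θ, hθ, hθρ⟩ := h3
    refine ⟨θ, ?_, hθρ⟩
    rw [mem_roots ((Polynomial.map_ne_zero_iff (algebraMap k L).injective).2 hf0), IsRoot.def,
      eval_map, ← aeval_def] at hθ
    exact mem_rootSet.2 ⟨hf0, hθ⟩
  have hιa : ι (algebraMap k L a) = algebraMap k (kbar k K) a := ι.commutes a
  have hex : ∀ ρ θ : kbar k K, ∃ e : kbar k K, ρ ∈ d.R → θ ∈ d.R → ρ ≠ θ →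
      ρ ≠ algebraMap k (kbar k K) a → θ ≠ algebraMap k (kbar k K) a →
      d.δ ρ θ ^ 2 * ((algebraMap k (kbar k K) a - ρ) * (algebraMap k (kbar k K) a - θ)) = e ^ 2 ∧
      ∀ g : Gk k K, g ρ = ρ → g θ = θ → g e = e := by
    intro ρ θ
    by_cases hc : ρ ∈ d.R ∧ θ ∈ d.R ∧ ρ ≠ θ ∧ ρ ≠ algebraMap k (kbar k K) a ∧
        θ ≠ algebraMap k (kbar k K) a
    · obtain ⟨hρ, hθ, hne, hρa, hθa⟩ := hc
      obtain ⟨t, ht, rfl⟩ := hroots ρ hρ
      obtain ⟨t', ht', rfl⟩ := hroots θ hθ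
      obtain ⟨b, hb, hbD⟩ := hT t ht t' ht' (fun h => hne (by rw [h]))
        (fun h => hρa (by rw [h, hιa])) (fun h => hθa (by rw [h, hιa]))
      refine ⟨ι b, fun _ _ _ _ _ => ⟨?_, ?_⟩⟩
      · rw [← hD t ht t' ht', ← hιa, ← map_sub, ← map_sub, ← map_mul, ← map_mul, hbD, map_pow]
      · intro g hg hg'
        let φ : L →ₐ[k] kbar k K := (g : kbar k K →ₐ[k] kbar k K).comp ι
        have h0 : ∀ z ∈ ({t, t'} : Set L), φ z = ι z := by
          rintro z (rfl | rfl)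
          · exact hg
          · exact hg'
        exact IntermediateField.adjoin_induction (s := {t, t'}) k (p := fun z _ => φ z = ι z) h0
          (fun z => by rw [φ.commutes, ι.commutes])
          (fun z w _ _ h1 h2 => by rw [map_add, map_add, h1, h2])
          (fun z _ h1 => by rw [map_inv₀, map_inv₀, h1])
          (fun z w _ _ h1 h2 => by rw [map_mul, map_mul, h1, h2]) hb
    · exact ⟨0, fun h1 h2 h3 h4 h5 => absurd ⟨h1, h2, h3, h4, h5⟩ hc⟩
  choose e he using hex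
  refine agrees_of_squares d (by rw [hcard]; exact hev) ((d.hR _).2 (by
    rw [aeval_algebraMap_apply, coe_aeval_eq_eval, ha, map_zero])) e ?_ ?_
  · intro ρ hρ θ hθ h1 h2 h3
    exact (he ρ θ hρ hθ h1 h2 h3).1
  · intro ρ hρ θ hθ h1 h2 h3
    exact (he ρ θ hρ hθ h1 h2 h3).2

end Pool.Agent.HG
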